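import Mathlib
import Pool.Agent.H8.Tau2

set_option autoImplicit false

namespace Pool.Agent.Results.MP_9c4169_gt.Union

open Set Filter Pool.Agent.H8.Tau

/-- open γ-covers and τ-covers of the subspace `X` of the reals -/
abbrev Γ (X : Set ℝ) : Set (Set X) → Prop := Ga IsOpen
abbrev T (X : Set ℝ) : Set (Set X) → Prop := Ta IsOpen
/-- countable Borel γ-covers and τ-covers of the subspace `X` -/
abbrev BΓ (X : Set ℝ) : Set (Set X) → Prop := fun 𝒰 => 𝒰.Countable ∧ Ga MeasurableSet 𝒰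
abbrev BT (X : Set ℝ) : Set (Set X) → Prop := fun 𝒰 => 𝒰.Countable ∧ Ta MeasurableSet 𝒰

lemma two {Z : Type} {A B : Set Z} (h : A ∪ B = univ) :
    ⋃ k : ℕ, (if k = 0 then A else B) = univ := by
  refine eq_univ_of_forall fun x => ?_
  rcases (h ▸ mem_univ x : x ∈ A ∪ B) with h | h
  exacts [mem_iUnion.2 ⟨0, by simpa⟩, mem_iUnion.2 ⟨1, by simpa⟩]

section
variable {A B Z : Type} {f : A → Z} {g : B → Z} {OA : Set A → Prop} {OB : Set B → Prop}
  {O : Set Z → Prop}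

lemma sel_range (hf : ∀ U, O U → OA (f ⁻¹' U)) (h : Sel OA univ) : Sel O (range f) := by
  intro u ho hu
  obtain ⟨g, hg⟩ := h (fun n m => f ⁻¹' u n m) (fun n m => hf _ (ho n m)) fun n x => hu n (f x)
  exact ⟨g, by rintro _ ⟨x, rfl⟩; exact hg x trivial⟩

lemma sel_two (hf : ∀ U, O U → OA (f ⁻¹' U)) (hg : ∀ U, O U → OB (g ⁻¹' U))
    (h : range f ∪ range g = univ) (h1 : Sel OA univ) (h2 : Sel OB univ) : Sel O univ := by
  rw [← two h]
  refine sel_iUnion fun k => ?_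
  split_ifs
  exacts [sel_range hf h1, sel_range hg h2]

lemma it_pre {u : ℕ → Set Z} (h : IT u) (f : A → Z) : IT fun m => f ⁻¹' u m :=
  ⟨fun x => h.1 (f x), fun x y => h.2 (f x) (f y)⟩

lemma ps_range {u : ℕ → Set Z} (h : Ps (fun m => f ⁻¹' u m) univ) : Ps u (range f) := by
  obtain ⟨g, h1, h2⟩ := h
  exact ⟨g, h1, by rintro _ ⟨x, rfl⟩; exact h2 x trivial⟩

lemma ps_two {u : ℕ → Set Z} (hu : IT u) (h : range f ∪ range g = univ)
    (h1 : Ps (fun m => f ⁻¹' u m) univ) (h2 : Ps (fun m => g ⁻¹' u m) univ) : Ps u univ := by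
  refine ps_univ hu (fun k => ?_) (two h)
  split_ifs
  exacts [ps_range h1, ps_range h2]
end

lemma adm_meas (X : Set ℝ) : Adm (MeasurableSet : Set X → Prop) := fun _ _ _ h hC =>
  (h.union hC.measurableSet.compl).inter (measurableSet_singleton _).compl

lemma rng (X Y : Set ℝ) : range (inclusion (subset_union_left : X ⊆ X ∪ Y)) ∪
    range (inclusion (subset_union_right : Y ⊆ X ∪ Y)) = univ := by
  refine eq_univ_of_forall fun x => ?_
  rcases x.2 with h | h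
  exacts [Or.inl ⟨⟨x, h⟩, rfl⟩, Or.inr ⟨⟨x, h⟩, rfl⟩]

lemma empty_ta {Z : Type} (O : Set Z → Prop) [IsEmpty Z] : Ta O ∅ :=
  ⟨⟨by simp, by simp [Subsingleton.elim (univ : Set Z) ∅], by simp⟩,
    fun x => isEmptyElim x, fun x => isEmptyElim x⟩

lemma selB {X : Set ℝ} (H : S1 (BΓ X) (BT X)) : Sel MeasurableSet (univ : Set X) :=
  sel_univ (adm_meas X) (hh_of H (fun _ h => h.2.2.2) fun _ h1 h2 _ h4 =>
    ⟨countable_range _, ga_range h1 h2 h4⟩)

theorem result (X Y : Set ℝ) :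
    (S1 (Γ X) (T X) → S1 (Γ Y) (T Y) → S1 (Γ (X ∪ Y)) (T (X ∪ Y))) ∧
    (S1 (T X) (T X) → S1 (T Y) (T Y) → S1 (T (X ∪ Y)) (T (X ∪ Y))) ∧
    (S1 (BΓ X) (BT X) → S1 (BΓ Y) (BT Y) → S1 (BΓ (X ∪ Y)) (BT (X ∪ Y))) ∧
    (S1 (BT X) (BT X) → S1 (BT Y) (BT Y) → S1 (BT (X ∪ Y)) (BT (X ∪ Y))) := by
  have o1 : ∀ U : Set ↥(X ∪ Y), IsOpen U → IsOpen (inclusion subset_union_left ⁻¹' U) :=
    fun U h => h.preimage (continuous_inclusion _)
  have o2 : ∀ U : Set ↥(X ∪ Y), IsOpen U → IsOpen (inclusion subset_union_right ⁻¹' U) :=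
    fun U h => h.preimage (continuous_inclusion _)
  have m1 : ∀ U : Set ↥(X ∪ Y), MeasurableSet U →
      MeasurableSet (inclusion subset_union_left ⁻¹' U) :=
    fun U h => (continuous_inclusion _).measurable h
  have m2 : ∀ U : Set ↥(X ∪ Y), MeasurableSet U →
      MeasurableSet (inclusion subset_union_right ⁻¹' U) :=
    fun U h => (continuous_inclusion _).measurable h
  refine ⟨fun hX hY 𝒰 h => ?_, fun hX hY 𝒰 h => ?_, fun hX hY 𝒰 h => ?_, fun hX hY 𝒰 h => ?_⟩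
  · exact (fin_ga (fun n => (h n).1) (pick (sel_two o1 o2 (rng X Y) (sel_G hX) (sel_G hY))
      (fun n => (h n).1) fun n => (h n).enum)).imp fun U hU => ⟨hU.1, hU.2.ta⟩
  · rcases isEmpty_or_nonempty X with h0 | ⟨⟨x⟩⟩
    · obtain ⟨U, hU, -⟩ := hX (fun _ => ∅) fun _ => empty_ta _
      exact absurd (hU 0) (notMem_empty _)
    haveI : Nonempty ↥(X ∪ Y) := ⟨inclusion subset_union_left x⟩
    refine (fin_ga (fun n => (h n).1) (pick (sel_two o1 o2 (rng X Y) (sel_T hX) (sel_T hY))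
      (fun n => (h n).1) fun n => ?_)).imp fun U hU => ⟨hU.1, hU.2.ta⟩
    obtain ⟨u, h1, h2⟩ := (h n).enum'
    exact ps_ig h1 (ps_two h2 (rng X Y)
      (ps_of adm_open (hh_T hX) (fun m => o1 _ ((h n).1.1 _ (h1 m))) (it_pre h2 _))
      (ps_of adm_open (hh_T hY) (fun m => o2 _ ((h n).1.1 _ (h1 m))) (it_pre h2 _)))
  · exact (fin_ga (fun n => (h n).2.1) (pick (sel_two m1 m2 (rng X Y) (selB hX) (selB hY))
      (fun n => (h n).2.1) fun n => (h n).2.enum)).imp fun U hU =>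
        ⟨hU.1, countable_range _, hU.2.ta⟩
  · rcases isEmpty_or_nonempty X with h0 | ⟨⟨x⟩⟩
    · obtain ⟨U, hU, -⟩ := hX (fun _ => ∅) fun _ => ⟨countable_empty, empty_ta _⟩
      exact absurd (hU 0) (notMem_empty _)
    haveI : Nonempty ↥(X ∪ Y) := ⟨inclusion subset_union_left x⟩
    have s : ∀ {W : Set ℝ}, S1 (BT W) (BT W) → Sel MeasurableSet (univ : Set W) := fun H =>
      selB fun 𝒱 hV => H 𝒱 fun n => ⟨(hV n).1, (hV n).2.ta⟩
    have t : ∀ {W : Set ℝ}, S1 (BT W) (BT W) → HH (Z := W) IT MeasurableSet := fun H =>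
      hh_of H (fun _ h => h.2.2.2) fun _ h1 h2 h3 h4 => ⟨countable_range _, ta_range h1 h2 h3 h4⟩
    refine (fin_ga (fun n => (h n).2.1) (pick (sel_two m1 m2 (rng X Y) (s hX) (s hY))
      (fun n => (h n).2.1) fun n => ?_)).imp fun U hU => ⟨hU.1, countable_range _, hU.2.ta⟩
    obtain ⟨u, h1, h2⟩ := (h n).2.enum Subset.rfl (h n).1 (h n).2.2.1
    exact ps_ig h1 (ps_two h2 (rng X Y)
      (ps_of (adm_meas X) (t hX) (fun m => m1 _ ((h n).2.1.1 _ (h1 m))) (it_pre h2 _))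
      (ps_of (adm_meas Y) (t hY) (fun m => m2 _ ((h n).2.1.1 _ (h1 m))) (it_pre h2 _)))

end Pool.Agent.Results.MP_9c4169_gt.Union
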